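import Pool.Agent.H670MX.Stm

/-! H670-MX, BLK: large sieve for one block (helper142). -/

set_option autoImplicit false

open Finset Filter MeasureTheory Topology
open Pool.Agent.Helper112 (ee lsSep)

namespace Pool.Agent.H670MX

theorem BLK_norm (a : ℕ → ℂ) (j m : ℕ) (x : ℝ) :
    ‖BB a j m x‖ = ‖∑ n ∈ Icc 1 (2 ^ j), a (m * 2 ^ j + n - 1) * ee (n * x)‖ := by
  have e1 : BB a j m x = ∑ i ∈ range (2 ^ j), a (m * 2 ^ j + i) * ee (((m * 2 ^ j + i : ℕ) : ℝ) * x) := by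
    unfold BB
    rw [Finset.sum_Ico_eq_sum_range]
    have : (m + 1) * 2 ^ j - m * 2 ^ j = 2 ^ j := by
      rw [add_mul, one_mul, Nat.add_sub_cancel_left]
    rw [this]
  have e2 : ∑ n ∈ Icc 1 (2 ^ j), a (m * 2 ^ j + n - 1) * ee (n * x) =
      ∑ i ∈ range (2 ^ j), a (m * 2 ^ j + i) * ee (((1 + i : ℕ) : ℝ) * x) := by
    have : Icc 1 (2 ^ j) = Ico 1 (2 ^ j + 1) := by
      ext n; rw [mem_Icc, mem_Ico, Nat.lt_succ_iff]
    rw [this, Finset.sum_Ico_eq_sum_range]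
    have h2 : 2 ^ j + 1 - 1 = 2 ^ j := Nat.add_sub_cancel _ _
    rw [h2]
    apply sum_congr rfl
    intro i _
    have h3 : m * 2 ^ j + (1 + i) - 1 = m * 2 ^ j + i := by omega
    rw [h3]
  have e3 : BB a j m x = ee (((m * 2 ^ j : ℝ) - 1) * x) *
      ∑ n ∈ Icc 1 (2 ^ j), a (m * 2 ^ j + n - 1) * ee (n * x) := by
    rw [e1, e2, mul_sum]
    apply sum_congr rfl
    intro i _
    have : (((m * 2 ^ j + i : ℕ) : ℝ) * x) =
        ((m * 2 ^ j : ℝ) - 1) * x + (((1 + i : ℕ) : ℝ) * x) := by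
      push_cast; ring
    rw [this, Pool.Agent.Helper112.ls_ee_add]
    ring
  rw [e3, norm_mul, Pool.Agent.Helper112.ls_norm_ee, one_mul]

theorem t_BLK : S_BLK := by
  intro a ha j m k S ξ hjk hsep
  have h := Pool.Agent.Helper112.ls_general S ξ (2 ^ k) (2 ^ j) Nat.one_le_two_pow hsep
    (fun n => a (m * 2 ^ j + n - 1))
  have h1 : ∑ r ∈ S, ‖BB a j m (ξ r)‖ ^ 2 =
      ∑ r ∈ S, ‖∑ n ∈ Icc 1 (2 ^ j), a (m * 2 ^ j + n - 1) * ee (n * ξ r)‖ ^ 2 :=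
    sum_congr rfl fun r _ => by rw [BLK_norm]
  rw [h1]
  refine h.trans ?_
  have h2 : ∑ n ∈ Icc 1 (2 ^ j), ‖a (m * 2 ^ j + n - 1)‖ ^ 2 ≤ 2 ^ j := by
    calc _ ≤ ∑ n ∈ Icc 1 (2 ^ j), (1 : ℝ) := by
          apply sum_le_sum
          intro n _
          exact pow_le_one₀ (norm_nonneg _) (ha _)
      _ = 2 ^ j := by simp
  have h3 : (2 : ℝ) ^ j ≤ 2 ^ k := pow_le_pow_right₀ (by norm_num) hjk
  push_cast
  have h4 : 6 * ((2 : ℝ) ^ j + 2 ^ k) ≤ 12 * 2 ^ k := by linarith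
  exact mul_le_mul h4 h2 (sum_nonneg fun _ _ => by positivity) (by positivity)

end Pool.Agent.H670MX
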