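import Pool.Agent.H670MX.Stm

set_option autoImplicit false

open Finset Filter MeasureTheory Topology
open Pool.Agent.Helper112 (ee lsSep)

namespace Pool.Agent.H670MX

/-- two different cells of the same parity are separated -/
lemma cel_sep (k : ℕ) (hk : 1 ≤ k) (i j : ℕ) (hi : i < 2 ^ k) (hij : i < j) (hj : j < 2 ^ k)
    (hpar : i % 2 = j % 2) (x y : ℝ)
    (hx : (i : ℝ) / 2 ^ k ≤ x) (hx2 : x < ((i : ℝ) + 1) / 2 ^ k)
    (hy : (j : ℝ) / 2 ^ k ≤ y) (hy2 : y < ((j : ℝ) + 1) / 2 ^ k) :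
    lsSep (2 ^ k) (y - x) := by
  have h2 : (0 : ℝ) < 2 ^ k := by positivity
  have heven : (2 ^ k : ℕ) % 2 = 0 := by
    obtain ⟨m, rfl⟩ : ∃ m, k = m + 1 := ⟨k - 1, by omega⟩
    rw [pow_succ]; omega
  have hij2 : (i : ℝ) + 2 ≤ j := by
    have : i + 2 ≤ j := by omega
    exact_mod_cast this
  have hji : (j : ℝ) + 2 ≤ 2 ^ k + i := by
    have : j + 2 ≤ 2 ^ k + i := by omega
    exact_mod_cast this
  rw [div_le_iff₀ h2] at hx hy
  rw [lt_div_iff₀ h2] at hx2 hy2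
  have hlow : 1 / (2 : ℝ) ^ k ≤ y - x := by
    rw [div_le_iff₀ h2]
    nlinarith
  have hup : y - x ≤ 1 - 1 / (2 : ℝ) ^ k := by
    have : (y - x) * 2 ^ k ≤ 2 ^ k - 1 := by nlinarith
    have h3 : 1 - 1 / (2 : ℝ) ^ k = (2 ^ k - 1) / 2 ^ k := by field_simp
    rw [h3, le_div_iff₀ h2]
    exact this
  have hpos : 0 < 1 / (2 : ℝ) ^ k := by positivity
  have hfr : Int.fract (y - x) = y - x := Int.fract_eq_self.2 ⟨by linarith, by linarith⟩
  unfold lsSep
  rw [hfr]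
  push_cast
  exact ⟨hlow, hup⟩

lemma sep_symm {K : ℕ} (hK : 1 ≤ K) {x : ℝ} (h : lsSep K x) : lsSep K (-x) :=
  (Pool.Agent.Helper112.lsSep_neg hK h).1

theorem t_CEL (h : S_MAXI) : S_CEL := by
  intro a ha δ hδ hδ2 k hk T hT
  classical
  choose! x hx1 hx2 R hR1 hR2 hR3 using fun i (hi : i ∈ T) => (hT i hi).2
  have hclass : ∀ p : ℕ, ((T.filter (fun i => i % 2 = p)).card : ℝ) ≤
      48 * (k : ℝ) ^ 2 * 2 ^ ((k : ℝ) * (1 - 2 * δ)) := by
    intro p
    set S := T.filter (fun i => i % 2 = p) with hS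
    have hmem : ∀ i ∈ S, i ∈ T ∧ i % 2 = p := fun i hi => Finset.mem_filter.1 hi
    have hsep : ∀ r ∈ S, ∀ s ∈ S, r ≠ s → lsSep (2 ^ k) (x s - x r) := by
      intro r hr s hs hrs
      obtain ⟨hrT, hrp⟩ := hmem r hr
      obtain ⟨hsT, hsp⟩ := hmem s hs
      rcases lt_or_gt_of_ne hrs with hlt | hgt
      · exact cel_sep k hk r s (hT r hrT).1 hlt (hT s hsT).1 (by omega) _ _ (hx1 r hrT) (hx2 r hrT)
          (hx1 s hsT) (hx2 s hsT)
      · have := cel_sep k hk s r (hT s hsT).1 hgt (hT r hrT).1 (by omega) _ _ (hx1 s hsT)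
          (hx2 s hsT) (hx1 r hrT) (hx2 r hrT)
        have h2 := sep_symm (Nat.one_le_two_pow) this
        rwa [neg_sub] at h2
    have hm := h a ha k S x R hsep (fun r hr => hR2 r (hmem r hr).1)
    have hterm : ∀ r ∈ S, (2 : ℝ) ^ (((k : ℝ) - 1) * (1 + 2 * δ)) ≤ ‖FF a (R r) (x r)‖ ^ 2 := by
      intro r hr
      obtain ⟨hrT, _⟩ := hmem r hr
      have h1 := (hR3 r hrT).le
      have hRlow : (2 : ℝ) ^ ((k : ℝ) - 1) ≤ (R r : ℝ) := by
        have h0 : ((2 ^ (k - 1) : ℕ) : ℝ) ≤ (R r : ℝ) := by exact_mod_cast hR1 r hrT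
        have h00 : (2 : ℝ) ^ ((k : ℝ) - 1) = ((2 ^ (k - 1) : ℕ) : ℝ) := by
          push_cast
          rw [← Real.rpow_natCast, Nat.cast_sub hk]
          simp
        rw [h00]; exact h0
      have h3 : (2 : ℝ) ^ (((k : ℝ) - 1) * (1 + 2 * δ)) ≤ ((R r : ℝ) ^ (1 / 2 + δ)) ^ 2 := by
        have e1 : ((R r : ℝ) ^ (1 / 2 + δ)) ^ 2 = (R r : ℝ) ^ (1 + 2 * δ) := by
          rw [← Real.rpow_natCast, ← Real.rpow_mul (Nat.cast_nonneg _)]
          congr 1
          push_cast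
          ring
        rw [e1, Real.rpow_mul (by norm_num)]
        exact Real.rpow_le_rpow (by positivity) hRlow (by linarith)
      exact h3.trans (pow_le_pow_left₀ (by positivity) h1 2)
    have hsum : (S.card : ℝ) * (2 : ℝ) ^ (((k : ℝ) - 1) * (1 + 2 * δ)) ≤
        12 * (k : ℝ) ^ 2 * 4 ^ k := by
      refine le_trans ?_ hm
      rw [← nsmul_eq_mul]
      exact Finset.card_nsmul_le_sum S _ _ hterm
    have hpos : (0 : ℝ) < 2 ^ (((k : ℝ) - 1) * (1 + 2 * δ)) := by positivity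
    have hfin : 12 * (k : ℝ) ^ 2 * 4 ^ k ≤
        (48 * (k : ℝ) ^ 2 * 2 ^ ((k : ℝ) * (1 - 2 * δ))) *
          2 ^ (((k : ℝ) - 1) * (1 + 2 * δ)) := by
      have e4 : (4 : ℝ) ^ k = 2 ^ (2 * (k : ℝ)) := by
        rw [Real.rpow_mul (by norm_num)]
        norm_num
      have e5 : (2 : ℝ) ^ ((k : ℝ) * (1 - 2 * δ)) * 2 ^ (((k : ℝ) - 1) * (1 + 2 * δ)) =
          2 ^ (2 * (k : ℝ) - (1 + 2 * δ)) := by
        rw [← Real.rpow_add (by norm_num)]
        congr 1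
        ring
      have e6 : (2 : ℝ) ^ (2 * (k : ℝ)) ≤ 4 * 2 ^ (2 * (k : ℝ) - (1 + 2 * δ)) := by
        have e7 : (4 : ℝ) * 2 ^ (2 * (k : ℝ) - (1 + 2 * δ)) =
            2 ^ (2 + (2 * (k : ℝ) - (1 + 2 * δ))) := by
          rw [Real.rpow_add (by norm_num)]
          norm_num
        rw [e7]
        exact Real.rpow_le_rpow_of_exponent_le (by norm_num) (by linarith)
      calc 12 * (k : ℝ) ^ 2 * 4 ^ k = 12 * (k : ℝ) ^ 2 * 2 ^ (2 * (k : ℝ)) := by rw [e4]
        _ ≤ 12 * (k : ℝ) ^ 2 * (4 * 2 ^ (2 * (k : ℝ) - (1 + 2 * δ))) :=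
            mul_le_mul_of_nonneg_left e6 (by positivity)
        _ = 48 * (k : ℝ) ^ 2 * (2 ^ ((k : ℝ) * (1 - 2 * δ)) *
            2 ^ (((k : ℝ) - 1) * (1 + 2 * δ))) := by rw [e5]; ring
        _ = _ := by ring
    exact le_of_mul_le_mul_right (hsum.trans hfin) hpos
  have hsplit : T.card = (T.filter (fun i => i % 2 = 0)).card +
      (T.filter (fun i => i % 2 = 1)).card := by
    rw [← Finset.card_union_of_disjoint]
    · congr 1
      ext i
      simp only [Finset.mem_union, Finset.mem_filter]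
      constructor
      · intro hi
        rcases Nat.mod_two_eq_zero_or_one i with h0 | h0
        · exact Or.inl ⟨hi, h0⟩
        · exact Or.inr ⟨hi, h0⟩
      · rintro (hi | hi) <;> exact hi.1
    · rw [Finset.disjoint_filter]
      intro i _ h0 h1
      omega
  have hc : (T.card : ℝ) = ((T.filter (fun i => i % 2 = 0)).card : ℝ) +
      ((T.filter (fun i => i % 2 = 1)).card : ℝ) := by
    rw [hsplit]; push_cast; ring
  rw [hc]
  have h0 := hclass 0
  have h1 := hclass 1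
  linarith

end Pool.Agent.H670MX
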