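import Pool.Agent.H670MX.Stm

/-!
DYA: dyadic decomposition of the partial sums.
-/

set_option autoImplicit false

open Finset Filter MeasureTheory Topology
open Pool.Agent.Helper112 (ee lsSep)

namespace Pool.Agent.H670MX

theorem t_DYA : S_DYA := by
  intro a R k x hR
  set s : ℕ → ℂ := fun j => ∑ n ∈ range ((R / 2 ^ j) * 2 ^ j), a n * ee (n * x) with hs
  have h0 : s 0 = FF a R x := by
    simp [hs, FF]
  have hk : s k = 0 := by
    have : R / 2 ^ k = 0 := Nat.div_eq_of_lt hR
    simp [hs, this]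
  have htel : FF a R x = ∑ j ∈ range k, (s j - s (j + 1)) := by
    rw [Finset.sum_range_sub' s k, hk, h0, sub_zero]
  have hterm : ∀ j ∈ range k, ‖s j - s (j + 1)‖ ^ 2 ≤
      ∑ m ∈ range (2 ^ (k - j)), ‖BB a j m x‖ ^ 2 := by
    intro j hj
    rw [Finset.mem_range] at hj
    have hnn : 0 ≤ ∑ m ∈ range (2 ^ (k - j)), ‖BB a j m x‖ ^ 2 :=
      Finset.sum_nonneg fun _ _ => by positivity
    set q := R / 2 ^ (j + 1) with hq
    have hq2 : q = (R / 2 ^ j) / 2 := by
      rw [hq, pow_succ, Nat.div_div_eq_div_mul]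
    have hsj1 : s (j + 1) = ∑ n ∈ range ((2 * q) * 2 ^ j), a n * ee (n * x) := by
      simp only [hs]
      rw [← hq]
      congr 2
      rw [pow_succ]
      ring
    have hlt : R / 2 ^ j < 2 ^ (k - j) := by
      apply Nat.div_lt_of_lt_mul
      rw [← pow_add]
      have : j + (k - j) = k := by omega
      rw [this]
      exact hR
    rcases (by omega : R / 2 ^ j = 2 * q ∨ R / 2 ^ j = 2 * q + 1) with hc | hc
    · have : s j - s (j + 1) = 0 := by
        rw [hsj1]
        simp only [hs]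
        rw [hc, sub_self]
      rw [this, norm_zero]
      simpa using hnn
    · have : s j - s (j + 1) = BB a j (2 * q) x := by
        rw [hsj1]
        simp only [hs]
        rw [hc, BB, Finset.sum_Ico_eq_sub _ (Nat.mul_le_mul_right _ (by omega))]
      rw [this]
      exact Finset.single_le_sum (f := fun m => ‖BB a j m x‖ ^ 2) (fun _ _ => by positivity)
        (Finset.mem_range.mpr (by omega))
  calc ‖FF a R x‖ ^ 2 = ‖∑ j ∈ range k, (s j - s (j + 1))‖ ^ 2 := by rw [htel]
    _ ≤ (∑ j ∈ range k, ‖s j - s (j + 1)‖) ^ 2 :=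
        pow_le_pow_left₀ (norm_nonneg _) (norm_sum_le _ _) 2
    _ ≤ (range k).card * ∑ j ∈ range k, ‖s j - s (j + 1)‖ ^ 2 := sq_sum_le_card_mul_sum_sq
    _ ≤ k * ∑ j ∈ range k, ∑ m ∈ range (2 ^ (k - j)), ‖BB a j m x‖ ^ 2 := by
        rw [Finset.card_range]
        exact mul_le_mul_of_nonneg_left (Finset.sum_le_sum hterm) (by positivity)

end Pool.Agent.H670MX
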