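import Pool.Agent.H670MX.Stm

/-!
HAU: Hausdorff dimension of a limsup set of dyadic cells.
-/

set_option autoImplicit false

open Finset Filter MeasureTheory Topology

namespace Pool.Agent.H670MX

open scoped ENNReal NNReal

/-- the cells used for the cover number `K` -/
noncomputable def cellK (B : ℕ → ℕ → Prop) (K : ℕ) (p : ℕ × ℕ) : Set ℝ :=
  open Classical in
  if K + 1 ≤ p.1 ∧ p.2 < 2 ^ p.1 ∧ B p.1 p.2 then
    Set.Icc ((p.2 : ℝ) / 2 ^ p.1) (((p.2 : ℝ) + 1) / 2 ^ p.1) else ∅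

lemma ediam_cell (i k : ℕ) :
    Metric.ediam (Set.Icc ((i : ℝ) / 2 ^ k) (((i : ℝ) + 1) / 2 ^ k)) =
      ENNReal.ofReal (1 / 2 ^ k) := by
  rw [Real.ediam_Icc]
  congr 1
  ring

lemma hau_measure (δ C : ℝ) (_hδ : 0 ≤ δ) (hδ2 : δ ≤ 1 / 2) (hC : 0 ≤ C) (B : ℕ → ℕ → Prop)
    (hB : ∀ k : ℕ, 1 ≤ k → ∀ T : Finset ℕ, (∀ i ∈ T, i < 2 ^ k ∧ B k i) →
      (T.card : ℝ) ≤ C * (k : ℝ) ^ 2 * 2 ^ ((k : ℝ) * (1 - 2 * δ)))
    (s : ℝ) (hs : 1 - 2 * δ < s) :
    Measure.hausdorffMeasure s {x : ℝ | ∃ᶠ k : ℕ in atTop, ∃ i : ℕ, i < 2 ^ k ∧ B k i ∧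
      (i : ℝ) / 2 ^ k ≤ x ∧ x < ((i : ℝ) + 1) / 2 ^ k} ≠ ⊤ := by
  classical
  have hs0 : 0 < s := by linarith
  set r : ℝ := (2 : ℝ) ^ (1 - 2 * δ - s) with hr
  have hr0 : 0 < r := by rw [hr]; positivity
  have hr1 : r < 1 := by
    rw [hr]
    exact Real.rpow_lt_one_of_one_lt_of_neg (by norm_num) (by linarith)
  set f : ℕ → ℝ := fun k => C * ((k : ℝ) ^ 2 * r ^ k) with hf
  have hfs : Summable f := by
    apply Summable.mul_left
    apply summable_pow_mul_geometric_of_norm_lt_one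
    rw [Real.norm_of_nonneg hr0.le]
    exact hr1
  have hf0 : ∀ k, 0 ≤ f k := fun k => by rw [hf]; positivity
  have hfE : ∑' k, ENNReal.ofReal (f k) ≠ ⊤ := hfs.tsum_ofReal_ne_top
  have hfeq : ∀ k : ℕ, C * (k : ℝ) ^ 2 * 2 ^ ((k : ℝ) * (1 - 2 * δ)) * (1 / 2 ^ k) ^ s = f k := by
    intro k
    have h1 : ((1 : ℝ) / 2 ^ k) ^ s = (2 : ℝ) ^ (-((k : ℝ) * s)) := by
      rw [one_div, ← Real.rpow_natCast, ← Real.rpow_neg (by norm_num), ← Real.rpow_mul (by norm_num)]
      congr 1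
      ring
    have h2 : r ^ k = (2 : ℝ) ^ ((k : ℝ) * (1 - 2 * δ)) * (2 : ℝ) ^ (-((k : ℝ) * s)) := by
      rw [← Real.rpow_add (by norm_num), hr, ← Real.rpow_natCast, ← Real.rpow_mul (by norm_num)]
      congr 1
      ring
    rw [hf]
    simp only
    rw [h1, h2]
    ring
  refine ne_top_of_le_ne_top hfE ?_
  refine le_trans (Measure.hausdorffMeasure_le_liminf_tsum (β := ℕ) (ι := fun _ => ℕ × ℕ) s _
    (l := atTop) (fun K => ENNReal.ofReal ((1 / 2 : ℝ) ^ K)) ?_ (cellK B) ?_ ?_) ?_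
  · have h := tendsto_pow_atTop_nhds_zero_of_lt_one (r := (1 / 2 : ℝ)) (by norm_num) (by norm_num)
    have h2 := (ENNReal.continuous_ofReal.tendsto 0).comp h
    rw [ENNReal.ofReal_zero] at h2
    exact h2
  · refine Eventually.of_forall fun K p => ?_
    unfold cellK
    split_ifs with h
    · rw [ediam_cell]
      apply ENNReal.ofReal_le_ofReal
      rw [one_div, ← inv_pow, one_div]
      exact pow_le_pow_of_le_one (by norm_num) (by norm_num) (by omega)
    · simp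
  · refine Eventually.of_forall fun K => ?_
    intro x hx
    rw [Set.mem_ofPred_eq, Filter.frequently_atTop] at hx
    obtain ⟨k, hk, i, hi, hb, h1, h2⟩ := hx (K + 1)
    rw [Set.mem_iUnion]
    refine ⟨(k, i), ?_⟩
    unfold cellK
    rw [if_pos ⟨hk, hi, hb⟩]
    exact ⟨h1, h2.le⟩
  · have key : ∀ K : ℕ, ∑' p : ℕ × ℕ, Metric.ediam (cellK B K p) ^ s ≤ ∑' k, ENNReal.ofReal (f k) := by
      intro K
      rw [ENNReal.tsum_prod']
      apply ENNReal.tsum_le_tsum
      intro k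
      by_cases hk : K + 1 ≤ k
      · set T : Finset ℕ := (range (2 ^ k)).filter (fun i => B k i) with hT
        have hz : ∀ i ∉ T, Metric.ediam (cellK B K (k, i)) ^ s = 0 := by
          intro i hi
          unfold cellK
          rw [if_neg]
          · simp [hs0]
          · rintro ⟨_, h2, h3⟩
            exact hi (by rw [hT, Finset.mem_filter, Finset.mem_range]; exact ⟨h2, h3⟩)
        rw [tsum_eq_sum hz]
        have hT' : ∀ i ∈ T, i < 2 ^ k ∧ B k i := by
          intro i hi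
          rw [hT, Finset.mem_filter, Finset.mem_range] at hi
          exact hi
        have hc : ∀ i ∈ T, Metric.ediam (cellK B K (k, i)) ^ s = ENNReal.ofReal ((1 / 2 ^ k) ^ s) := by
          intro i hi
          unfold cellK
          rw [if_pos ⟨hk, hT' i hi⟩, ediam_cell, ENNReal.ofReal_rpow_of_pos (by positivity)]
        rw [Finset.sum_congr rfl hc, Finset.sum_const, nsmul_eq_mul,
          ← ENNReal.ofReal_natCast, ← ENNReal.ofReal_mul (by positivity)]
        apply ENNReal.ofReal_le_ofReal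
        rw [← hfeq k]
        exact mul_le_mul_of_nonneg_right (hB k (by omega) T hT') (by positivity)
      · have hz : ∀ i : ℕ, Metric.ediam (cellK B K (k, i)) ^ s = 0 := by
          intro i
          unfold cellK
          rw [if_neg]
          · simp [hs0]
          · rintro ⟨h1, _, _⟩
            exact hk h1
        simp only [hz, tsum_zero]
        exact bot_le
    calc liminf (fun K => ∑' p : ℕ × ℕ, Metric.ediam (cellK B K p) ^ s) atTop
        ≤ liminf (fun _ : ℕ => ∑' k, ENNReal.ofReal (f k)) atTop :=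
          liminf_le_liminf (Eventually.of_forall key)
      _ = ∑' k, ENNReal.ofReal (f k) := liminf_const _

theorem t_HAU : S_HAU := by
  intro δ C hδ hδ2 hC B hB
  apply ENNReal.le_of_forall_pos_le_add
  intro ε hε _
  have hs : (1 - 2 * δ) < 1 - 2 * δ + (ε : ℝ) := by
    have : (0 : ℝ) < ε := by exact_mod_cast hε
    linarith
  have hm := hau_measure δ C hδ hδ2 hC B hB (1 - 2 * δ + ε) hs
  have hnn : 0 ≤ 1 - 2 * δ + (ε : ℝ) := by
    have : (0 : ℝ) ≤ ε := ε.2
    linarith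
  have h1 := dimH_le_of_hausdorffMeasure_ne_top (d := (1 - 2 * δ + (ε : ℝ)).toNNReal)
    (by rw [Real.coe_toNNReal _ hnn]; exact hm)
  refine h1.trans (le_of_eq ?_)
  have h2 : ((ε : ℝ≥0) : ℝ≥0∞) = ENNReal.ofReal (ε : ℝ) := ENNReal.ofReal_coe_nnreal.symm
  have h3 : (((1 - 2 * δ + (ε : ℝ)).toNNReal : ℝ≥0) : ℝ≥0∞) = ENNReal.ofReal (1 - 2 * δ + ε) := rfl
  rw [h2, h3]
  exact ENNReal.ofReal_add (by linarith) ε.2

end Pool.Agent.H670MX
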