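import Pool.Agent.H670MX.Stm

set_option autoImplicit false

open Finset
open Pool.Agent.Helper112 (ee lsSep)

namespace Pool.Agent.H670MX

theorem t_MAXI (h1 : S_BLK) (h2 : S_DYA) : S_MAXI := by
  intro a ha k S ξ R hsep hR
  have e1 : ∑ r ∈ S, ‖FF a (R r) (ξ r)‖ ^ 2 ≤
      ∑ r ∈ S, (k : ℝ) * ∑ j ∈ range k, ∑ m ∈ range (2 ^ (k - j)), ‖BB a j m (ξ r)‖ ^ 2 :=
    Finset.sum_le_sum fun r hr => h2 a (R r) k (ξ r) (hR r hr)
  have e2 : ∑ r ∈ S, (k : ℝ) * ∑ j ∈ range k, ∑ m ∈ range (2 ^ (k - j)), ‖BB a j m (ξ r)‖ ^ 2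
      = (k : ℝ) * ∑ j ∈ range k, ∑ m ∈ range (2 ^ (k - j)), ∑ r ∈ S, ‖BB a j m (ξ r)‖ ^ 2 := by
    rw [← Finset.mul_sum, Finset.sum_comm]
    congr 1
    refine Finset.sum_congr rfl fun j _ => ?_
    rw [Finset.sum_comm]
  have e3 : ∑ j ∈ range k, ∑ m ∈ range (2 ^ (k - j)), ∑ r ∈ S, ‖BB a j m (ξ r)‖ ^ 2
      ≤ ∑ j ∈ range k, (12 * 4 ^ k : ℝ) := by
    refine Finset.sum_le_sum fun j hj => ?_
    have hjk : j < k := Finset.mem_range.mp hj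
    calc ∑ m ∈ range (2 ^ (k - j)), ∑ r ∈ S, ‖BB a j m (ξ r)‖ ^ 2
        ≤ ∑ m ∈ range (2 ^ (k - j)), (12 * 2 ^ k * 2 ^ j : ℝ) :=
          Finset.sum_le_sum fun m _ => h1 a ha j m k S ξ hjk.le hsep
      _ = 12 * 4 ^ k := by
          rw [Finset.sum_const, Finset.card_range, nsmul_eq_mul]
          push_cast
          have e4 : (2 : ℝ) ^ (k - j) * 2 ^ j = 2 ^ k := by
            rw [← pow_add, Nat.sub_add_cancel hjk.le]
          have e5 : (4 : ℝ) ^ k = 2 ^ k * 2 ^ k := by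
            rw [← mul_pow]; norm_num
          calc (2 : ℝ) ^ (k - j) * (12 * 2 ^ k * 2 ^ j)
              = 12 * 2 ^ k * (2 ^ (k - j) * 2 ^ j) := by ring
            _ = 12 * 4 ^ k := by rw [e4, e5]; ring
  calc ∑ r ∈ S, ‖FF a (R r) (ξ r)‖ ^ 2 ≤ _ := e1
    _ = _ := e2
    _ ≤ (k : ℝ) * ∑ j ∈ range k, (12 * 4 ^ k : ℝ) :=
        mul_le_mul_of_nonneg_left e3 (Nat.cast_nonneg k)
    _ = 12 * (k : ℝ) ^ 2 * 4 ^ k := by
        rw [Finset.sum_const, Finset.card_range, nsmul_eq_mul]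
        ring

end Pool.Agent.H670MX
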