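import Pool.Agent.H670MX.Stm
import Pool.Agent.H670MX.T_BLK
import Pool.Agent.H670MX.T_CEL
import Pool.Agent.H670MX.T_MAXI
import Pool.Agent.H670MX.T_DYA_150
import Pool.Agent.H670MX.T_HAU_150

set_option autoImplicit false

namespace Pool.Agent.H670MX

/-- the theorem for bounded coefficients -/
theorem mx_main : S_MX := mx_of t_BLK t_DYA t_MAXI t_CEL t_HAU

end Pool.Agent.H670MX
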