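import Mathlib
import Pool.Agent.Helper112.LS

/-!
# Large values of exponential sums with bounded coefficients: statements

The set where the partial sums are not bounded by the power `1/2 + δ` has Hausdorff dimension at
most `1 - 2 δ`.
-/

set_option autoImplicit false

open Finset Filter MeasureTheory Topology
open Pool.Agent.Helper112 (ee lsSep)

namespace Pool.Agent.H670MX

/-- exponential sum over `n < R` -/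
noncomputable def FF (a : ℕ → ℂ) (R : ℕ) (x : ℝ) : ℂ := ∑ n ∈ range R, a n * ee (n * x)

/-- a block of length `2 ^ j` -/
noncomputable def BB (a : ℕ → ℂ) (j m : ℕ) (x : ℝ) : ℂ :=
  ∑ n ∈ Ico (m * 2 ^ j) ((m + 1) * 2 ^ j), a n * ee (n * x)

/-- BLK: large sieve for one block -/
def S_BLK : Prop := ∀ a : ℕ → ℂ, (∀ n, ‖a n‖ ≤ 1) →
  ∀ (j m k : ℕ) (S : Finset ℕ) (ξ : ℕ → ℝ), j ≤ k →
  (∀ r ∈ S, ∀ s ∈ S, r ≠ s → lsSep (2 ^ k) (ξ s - ξ r)) →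
  ∑ r ∈ S, ‖BB a j m (ξ r)‖ ^ 2 ≤ 12 * 2 ^ k * 2 ^ j

/-- DYA: dyadic decomposition of the partial sums -/
def S_DYA : Prop := ∀ (a : ℕ → ℂ) (R k : ℕ) (x : ℝ), R < 2 ^ k →
  ‖FF a R x‖ ^ 2 ≤ k * ∑ j ∈ range k, ∑ m ∈ range (2 ^ (k - j)), ‖BB a j m x‖ ^ 2

/-- MAXI: large sieve for the maximal function -/
def S_MAXI : Prop := ∀ a : ℕ → ℂ, (∀ n, ‖a n‖ ≤ 1) →
  ∀ (k : ℕ) (S : Finset ℕ) (ξ : ℕ → ℝ) (R : ℕ → ℕ),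
  (∀ r ∈ S, ∀ s ∈ S, r ≠ s → lsSep (2 ^ k) (ξ s - ξ r)) → (∀ r ∈ S, R r < 2 ^ k) →
  ∑ r ∈ S, ‖FF a (R r) (ξ r)‖ ^ 2 ≤ 12 * (k : ℝ) ^ 2 * 4 ^ k

/-- the cell `i` of level `k` contains a point with a large value -/
def bad (a : ℕ → ℂ) (δ : ℝ) (k i : ℕ) : Prop :=
  ∃ x : ℝ, (i : ℝ) / 2 ^ k ≤ x ∧ x < ((i : ℝ) + 1) / 2 ^ k ∧
    ∃ R : ℕ, 2 ^ (k - 1) ≤ R ∧ R < 2 ^ k ∧ (R : ℝ) ^ (1 / 2 + δ) < ‖FF a R x‖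

/-- CEL: number of cells -/
def S_CEL : Prop := ∀ a : ℕ → ℂ, (∀ n, ‖a n‖ ≤ 1) → ∀ δ : ℝ, 0 ≤ δ → δ ≤ 1 / 2 →
  ∀ k : ℕ, 1 ≤ k → ∀ T : Finset ℕ, (∀ i ∈ T, i < 2 ^ k ∧ bad a δ k i) →
  (T.card : ℝ) ≤ 96 * (k : ℝ) ^ 2 * 2 ^ ((k : ℝ) * (1 - 2 * δ))

/-- HAU: Hausdorff dimension of a limsup set of dyadic cells -/
def S_HAU : Prop := ∀ δ C : ℝ, 0 ≤ δ → δ ≤ 1 / 2 → 0 ≤ C → ∀ B : ℕ → ℕ → Prop,
  (∀ k : ℕ, 1 ≤ k → ∀ T : Finset ℕ, (∀ i ∈ T, i < 2 ^ k ∧ B k i) →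
    (T.card : ℝ) ≤ C * (k : ℝ) ^ 2 * 2 ^ ((k : ℝ) * (1 - 2 * δ))) →
  dimH {x : ℝ | ∃ᶠ k : ℕ in atTop, ∃ i : ℕ, i < 2 ^ k ∧ B k i ∧
    (i : ℝ) / 2 ^ k ≤ x ∧ x < ((i : ℝ) + 1) / 2 ^ k} ≤ ENNReal.ofReal (1 - 2 * δ)

/-- the theorem for bounded coefficients -/
def S_MX : Prop := ∀ a : ℕ → ℂ, (∀ n, ‖a n‖ ≤ 1) → ∀ δ : ℝ, 0 ≤ δ → δ ≤ 1 / 2 →
  dimH {x : ℝ | 0 ≤ x ∧ x < 1 ∧
    ∃ᶠ R : ℕ in atTop, (R : ℝ) ^ (1 / 2 + δ) < ‖FF a R x‖} ≤ ENNReal.ofReal (1 - 2 * δ)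

theorem mx_of (h1 : S_BLK) (h2 : S_DYA) (h3 : S_BLK → S_DYA → S_MAXI) (h4 : S_MAXI → S_CEL)
    (h5 : S_HAU) : S_MX := by
  intro a ha δ hδ hδ2
  refine le_trans (dimH_mono ?_)
    (h5 δ 96 hδ hδ2 (by norm_num) (bad a δ) (h4 (h3 h1 h2) a ha δ hδ hδ2))
  rintro x ⟨h0, hx1, hf⟩
  rw [Set.mem_setOf_eq, Filter.frequently_atTop]
  intro K
  rw [Filter.frequently_atTop] at hf
  obtain ⟨R, hR, hR2⟩ := hf (2 ^ K)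
  have hRpos : R ≠ 0 := by
    have : 0 < 2 ^ K := by positivity
    omega
  refine ⟨Nat.log 2 R + 1, ?_, ⌊x * 2 ^ (Nat.log 2 R + 1)⌋₊, ?_, ?_, ?_, ?_⟩
  · have := Nat.le_log_of_pow_le (b := 2) (by norm_num) hR
    omega
  · rw [Nat.floor_lt (by positivity)]
    push_cast
    have : (0 : ℝ) < 2 ^ (Nat.log 2 R + 1) := by positivity
    nlinarith
  · refine ⟨x, ?_, ?_, R, ?_, ?_, hR2⟩
    · rw [div_le_iff₀ (by positivity)]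
      exact Nat.floor_le (by positivity)
    · rw [lt_div_iff₀ (by positivity)]
      exact Nat.lt_floor_add_one _
    · simpa using Nat.pow_log_le_self 2 hRpos
    · exact Nat.lt_pow_succ_log_self (by norm_num) R
  · rw [div_le_iff₀ (by positivity)]
    exact Nat.floor_le (by positivity)
  · rw [lt_div_iff₀ (by positivity)]
    exact Nat.lt_floor_add_one _

end Pool.Agent.H670MX
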