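import Mathlib
import Pool.Agent.H670MX.Stm

/-! DYA: dyadic decomposition of the partial sums. -/

set_option autoImplicit false

open Finset Filter MeasureTheory Topology
open Pool.Agent.Helper112 (ee lsSep)

namespace Pool.Agent.H670MX

/-- the partial sum up to the last multiple of `2 ^ j` -/
noncomputable def DYA_s (a : ℕ → ℂ) (R : ℕ) (x : ℝ) (j : ℕ) : ℂ :=
  ∑ n ∈ range ((R / 2 ^ j) * 2 ^ j), a n * ee (n * x)

theorem DYA_step (a : ℕ → ℂ) (R k : ℕ) (x : ℝ) (hR : R < 2 ^ k) (j : ℕ) (hj : j < k) :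
    ‖DYA_s a R x j - DYA_s a R x (j + 1)‖ ^ 2 ≤ ∑ m ∈ range (2 ^ (k - j)), ‖BB a j m x‖ ^ 2 := by
  have hlt : R / 2 ^ j < 2 ^ (k - j) := by
    rw [Nat.div_lt_iff_lt_mul (by positivity), ← pow_add, Nat.sub_add_cancel hj.le]
    exact hR
  have hq : R / 2 ^ (j + 1) = (R / 2 ^ j) / 2 := by
    rw [Nat.div_div_eq_div_mul, pow_succ]
  obtain ⟨q, hq'⟩ : ∃ q, q = R / 2 ^ (j + 1) := ⟨_, rfl⟩
  obtain ⟨u, hu⟩ : ∃ u, u = R / 2 ^ j := ⟨_, rfl⟩
  rw [← hq', ← hu] at hq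
  rw [← hu] at hlt
  have e2 : (R / 2 ^ (j + 1)) * 2 ^ (j + 1) = (2 * q) * 2 ^ j := by
    rw [← hq', pow_succ]; ring
  have e3 : DYA_s a R x (j + 1) = ∑ n ∈ range ((2 * q) * 2 ^ j), a n * ee (n * x) := by
    unfold DYA_s
    rw [e2]
  have e4 : DYA_s a R x j = ∑ n ∈ range (u * 2 ^ j), a n * ee (n * x) := by
    unfold DYA_s
    rw [← hu]
  have hcase : u = 2 * q ∨ u = 2 * q + 1 := by omega
  rcases hcase with h | h
  · rw [e3, e4, h, sub_self, norm_zero]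
    have : (0 : ℝ) ≤ ∑ m ∈ range (2 ^ (k - j)), ‖BB a j m x‖ ^ 2 :=
      sum_nonneg fun m _ => by positivity
    simpa using this
  · have e5 : DYA_s a R x j - DYA_s a R x (j + 1) = BB a j (2 * q) x := by
      rw [e3, e4, h]
      unfold BB
      rw [sum_Ico_eq_sub _ (Nat.mul_le_mul_right _ (Nat.le_succ (2 * q)))]
    rw [e5]
    exact single_le_sum (f := fun m => ‖BB a j m x‖ ^ 2) (fun m _ => by positivity)
      (mem_range.2 (by omega))

theorem t_DYA : S_DYA := by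
  intro a R k x hR
  have h0 : DYA_s a R x 0 = FF a R x := by
    unfold DYA_s FF
    simp
  have hk : DYA_s a R x k = 0 := by
    unfold DYA_s
    rw [Nat.div_eq_of_lt hR]
    simp
  have h1 : FF a R x = ∑ j ∈ range k, (DYA_s a R x j - DYA_s a R x (j + 1)) := by
    rw [sum_range_sub', h0, hk, sub_zero]
  have h2 : ‖FF a R x‖ ≤ ∑ j ∈ range k, ‖DYA_s a R x j - DYA_s a R x (j + 1)‖ := by
    rw [h1]
    exact norm_sum_le _ _
  have h3 : ‖FF a R x‖ ^ 2 ≤ (∑ j ∈ range k, ‖DYA_s a R x j - DYA_s a R x (j + 1)‖) ^ 2 :=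
    pow_le_pow_left₀ (norm_nonneg _) h2 2
  have h4 := sq_sum_le_card_mul_sum_sq (s := range k)
    (f := fun j => ‖DYA_s a R x j - DYA_s a R x (j + 1)‖)
  rw [card_range] at h4
  refine h3.trans (h4.trans ?_)
  refine mul_le_mul_of_nonneg_left ?_ (Nat.cast_nonneg k)
  exact sum_le_sum fun j hj => DYA_step a R k x hR j (mem_range.1 hj)

end Pool.Agent.H670MX
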