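import Mathlib
import Pool.Agent.H670MX.Stm

set_option autoImplicit false

open Finset Filter MeasureTheory Topology ENNReal NNReal

namespace Pool.Agent.H670MX

open Classical in
/-- the cover of level `K` -/
noncomputable def HAU_t (B : ℕ → ℕ → Prop) (K : ℕ) (p : ℕ × ℕ) : Set ℝ :=
  if K ≤ p.1 ∧ p.2 < 2 ^ p.1 ∧ B p.1 p.2 then
    Set.Ico ((p.2 : ℝ) / 2 ^ p.1) (((p.2 : ℝ) + 1) / 2 ^ p.1) else ∅

theorem HAU_diam_le (B : ℕ → ℕ → Prop) (K : ℕ) (p : ℕ × ℕ) :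
    Metric.ediam (HAU_t B K p) ≤ ENNReal.ofReal ((2 : ℝ)⁻¹ ^ p.1) := by
  unfold HAU_t
  split_ifs with h
  · rw [Real.ediam_Ico]
    apply ENNReal.ofReal_le_ofReal
    rw [div_sub_div_same, add_sub_cancel_left, inv_pow, one_div]
  · simp

theorem HAU_diam_le' (B : ℕ → ℕ → Prop) (K : ℕ) (p : ℕ × ℕ) :
    Metric.ediam (HAU_t B K p) ≤ ENNReal.ofReal ((2 : ℝ)⁻¹ ^ K) := by
  by_cases h : K ≤ p.1
  · refine (HAU_diam_le B K p).trans (ENNReal.ofReal_le_ofReal ?_)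
    exact pow_le_pow_of_le_one (by norm_num) (by norm_num) h
  · unfold HAU_t
    rw [if_neg (fun h' => h h'.1)]
    simp

theorem HAU_row (δ C : ℝ) (hC : 0 ≤ C) (B : ℕ → ℕ → Prop)
    (hB : ∀ k : ℕ, 1 ≤ k → ∀ T : Finset ℕ, (∀ i ∈ T, i < 2 ^ k ∧ B k i) →
      (T.card : ℝ) ≤ C * (k : ℝ) ^ 2 * 2 ^ ((k : ℝ) * (1 - 2 * δ)))
    (d : ℝ) (hd : 0 < d) (K : ℕ) (hK : 1 ≤ K) (k : ℕ) :
    ∑' i, Metric.ediam (HAU_t B K (k, i)) ^ d ≤
      ENNReal.ofReal (C * ((k : ℝ) ^ 2 * ((2 : ℝ) ^ (1 - 2 * δ - d)) ^ k)) := by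
  classical
  by_cases hk : K ≤ k
  · set T : Finset ℕ := (range (2 ^ k)).filter (fun i => B k i) with hT
    have h1 : ∀ i ∉ T, Metric.ediam (HAU_t B K (k, i)) ^ d = 0 := by
      intro i hi
      have : ¬ (K ≤ k ∧ i < 2 ^ k ∧ B k i) := by
        rintro ⟨_, h2, h3⟩
        exact hi (by rw [hT, Finset.mem_filter, Finset.mem_range]; exact ⟨h2, h3⟩)
      unfold HAU_t
      rw [if_neg this]
      simp [hd]
    rw [tsum_eq_sum h1]
    have h2 : ∑ i ∈ T, Metric.ediam (HAU_t B K (k, i)) ^ d ≤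
        ∑ i ∈ T, ENNReal.ofReal (((2 : ℝ)⁻¹ ^ k) ^ d) := by
      refine Finset.sum_le_sum fun i _ => ?_
      rw [← ENNReal.ofReal_rpow_of_nonneg (by positivity) hd.le]
      exact ENNReal.rpow_le_rpow (HAU_diam_le B K (k, i)) hd.le
    refine h2.trans ?_
    rw [Finset.sum_const, nsmul_eq_mul, ← ENNReal.ofReal_natCast,
      ← ENNReal.ofReal_mul (by positivity)]
    apply ENNReal.ofReal_le_ofReal
    have h3 := hB k (hK.trans hk) T (by
      intro i hi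
      rw [hT, Finset.mem_filter, Finset.mem_range] at hi
      exact hi)
    have h4 : (0 : ℝ) ≤ ((2 : ℝ)⁻¹ ^ k) ^ d := by positivity
    refine (mul_le_mul_of_nonneg_right h3 h4).trans (le_of_eq ?_)
    have h5 : ((2 : ℝ)⁻¹ ^ k) ^ d = (2 : ℝ) ^ (-((k : ℝ) * d)) := by
      rw [inv_pow, Real.inv_rpow (by positivity), ← Real.rpow_natCast, ← Real.rpow_mul (by norm_num),
        Real.rpow_neg (by norm_num)]
    have h6 : ((2 : ℝ) ^ (1 - 2 * δ - d)) ^ k =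
        (2 : ℝ) ^ ((k : ℝ) * (1 - 2 * δ)) * (2 : ℝ) ^ (-((k : ℝ) * d)) := by
      rw [← Real.rpow_natCast, ← Real.rpow_mul (by norm_num), ← Real.rpow_add (by norm_num)]
      congr 1
      ring
    rw [h5, h6]
    ring
  · have h1 : ∀ i, Metric.ediam (HAU_t B K (k, i)) ^ d = 0 := by
      intro i
      unfold HAU_t
      rw [if_neg (fun h' => hk h'.1)]
      simp [hd]
    simp [h1]

theorem t_HAU : S_HAU := by
  intro δ C hδ hδ2 hC B hB
  refine dimH_le ?_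
  intro d hd
  by_contra hcon
  rw [not_le, ← ENNReal.ofReal_coe_nnreal] at hcon
  have hd1 : 1 - 2 * δ < (d : ℝ) :=
    (ENNReal.ofReal_lt_ofReal_iff_of_nonneg (by linarith)).1 hcon
  have hd0 : 0 < (d : ℝ) := by linarith
  set ρ : ℝ := (2 : ℝ) ^ (1 - 2 * δ - (d : ℝ)) with hρ
  have hρ0 : 0 < ρ := by positivity
  have hρ1 : ρ < 1 := Real.rpow_lt_one_of_one_lt_of_neg (by norm_num) (by linarith)
  have hsum : Summable (fun k : ℕ => C * ((k : ℝ) ^ 2 * ρ ^ k)) := by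
    apply Summable.mul_left
    exact summable_pow_mul_geometric_of_norm_lt_one 2 (by
      rw [Real.norm_of_nonneg hρ0.le]; exact hρ1)
  have hfin : ∑' k : ℕ, ENNReal.ofReal (C * ((k : ℝ) ^ 2 * ρ ^ k)) ≠ ∞ :=
    hsum.tsum_ofReal_ne_top
  have hmeas := MeasureTheory.Measure.hausdorffMeasure_le_liminf_tsum (β := ℕ)
    (ι := fun _ => ℕ × ℕ) (d : ℝ)
    {x : ℝ | ∃ᶠ k : ℕ in atTop, ∃ i : ℕ, i < 2 ^ k ∧ B k i ∧
      (i : ℝ) / 2 ^ k ≤ x ∧ x < ((i : ℝ) + 1) / 2 ^ k} (l := atTop)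
    (fun K => ENNReal.ofReal ((2 : ℝ)⁻¹ ^ K)) (by
      have h := tendsto_pow_atTop_nhds_zero_of_lt_one (r := (2 : ℝ)⁻¹) (by norm_num) (by norm_num)
      have h2 := (ENNReal.continuous_ofReal.tendsto 0).comp h
      rw [ENNReal.ofReal_zero] at h2
      exact h2)
    (HAU_t B) (Eventually.of_forall fun K p => HAU_diam_le' B K p)
    (Eventually.of_forall fun K => by
      intro x hx
      rw [Set.mem_setOf_eq, Filter.frequently_atTop] at hx
      obtain ⟨k, hk, i, hi, hBi, h1, h2⟩ := hx K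
      refine Set.mem_iUnion.2 ⟨(k, i), ?_⟩
      unfold HAU_t
      rw [if_pos ⟨hk, hi, hBi⟩]
      exact ⟨h1, h2⟩)
  have hle : liminf (fun K => ∑' p : ℕ × ℕ, Metric.ediam (HAU_t B K p) ^ (d : ℝ)) atTop ≤
      ∑' k : ℕ, ENNReal.ofReal (C * ((k : ℝ) ^ 2 * ρ ^ k)) := by
    refine Filter.liminf_le_of_frequently_le' ?_
    refine Eventually.frequently ?_
    filter_upwards [eventually_ge_atTop 1] with K hK
    rw [ENNReal.tsum_prod']
    exact ENNReal.tsum_le_tsum fun k => HAU_row δ C hC B hB d hd0 K hK k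
  have := hmeas.trans hle
  rw [hd, top_le_iff] at this
  exact hfin this

end Pool.Agent.H670MX
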